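import Pool.Agent.BER.Stmts

set_option autoImplicit false

/-! Row FRP of squad BER (MP_be01ff_an): representation of the elements of `TL`. -/

namespace Pool.Agent.BER.H4

open Set Filter Topology
open Pool.Agent.BER

variable {M : Type} [NormedAddCommGroup M] [NormedSpace ℝ M]

/-- The sum of the representation. -/
noncomputable def sm (J B : ℕ) (x y : ℕ → ℕ → M) (ψ L : ℝ) : M :=
  ∑ b ∈ Finset.range B, ∑ j ∈ Finset.range (J + 1),
    L ^ b • (Real.cos (j * ψ) • x b j + Real.sin (j * ψ) • y b j)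

theorem sm_ext (J B B' : ℕ) (x y : ℕ → ℕ → M) (h : ∀ b j, B ≤ b → x b j = 0 ∧ y b j = 0)
    (hB : B ≤ B') (ψ L : ℝ) : sm J B x y ψ L = sm J B' x y ψ L := by
  unfold sm
  refine Finset.sum_subset (Finset.range_mono hB) fun b _ hb => ?_
  refine Finset.sum_eq_zero fun j _ => ?_
  have hb' : B ≤ b := by
    by_contra hc
    exact hb (Finset.mem_range.2 (not_le.1 hc))
  rw [(h b j hb').1, (h b j hb').2, smul_zero, smul_zero, add_zero, smul_zero]

theorem sm_add (J B : ℕ) (x y x' y' : ℕ → ℕ → M) (ψ L : ℝ) :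
    sm J B (fun b j => x b j + x' b j) (fun b j => y b j + y' b j) ψ L =
      sm J B x y ψ L + sm J B x' y' ψ L := by
  unfold sm
  rw [← Finset.sum_add_distrib]
  refine Finset.sum_congr rfl fun b _ => ?_
  rw [← Finset.sum_add_distrib]
  refine Finset.sum_congr rfl fun j _ => ?_
  rw [← smul_add, smul_add (Real.cos _), smul_add (Real.sin _)]
  congr 1
  abel

theorem sm_smul (J B : ℕ) (c : ℝ) (x y : ℕ → ℕ → M) (ψ L : ℝ) :
    sm J B (fun b j => c • x b j) (fun b j => c • y b j) ψ L = c • sm J B x y ψ L := by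
  unfold sm
  rw [Finset.smul_sum]
  refine Finset.sum_congr rfl fun b _ => ?_
  rw [Finset.smul_sum]
  refine Finset.sum_congr rfl fun j _ => ?_
  rw [smul_comm c, smul_add c, smul_comm c (Real.cos _), smul_comm c (Real.sin _)]

/-- The representation with coefficients vanishing for large `b`. -/
def Rep (J : ℕ) (F : ℝ → ℝ → M) : Prop :=
  ∃ (B : ℕ) (x y : ℕ → ℕ → M), (∀ b j, ¬ (Odd j ∧ j ≤ J) → x b j = 0 ∧ y b j = 0) ∧
    (∀ b j, B ≤ b → x b j = 0 ∧ y b j = 0) ∧ ∀ ψ L, F ψ L = sm J B x y ψ L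

theorem rep_mono (J b j : ℕ) (s : Bool) (x : M) (hj : Odd j) (hJ : j ≤ J) :
    Rep J fun ψ L => (L ^ b * tg s j ψ) • x := by
  refine ⟨b + 1, fun b' j' => if b' = b ∧ j' = j ∧ s = false then x else 0,
    fun b' j' => if b' = b ∧ j' = j ∧ s = true then x else 0, ?_, ?_, ?_⟩
  · intro b' j' h
    have hne : j' ≠ j := by
      rintro rfl
      exact h ⟨hj, hJ⟩
    exact ⟨if_neg fun h => hne h.2.1, if_neg fun h => hne h.2.1⟩
  · intro b' j' h
    have hne : b' ≠ b := by omega
    exact ⟨if_neg fun h => hne h.1, if_neg fun h => hne h.1⟩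
  · intro ψ L
    unfold sm
    rw [Finset.sum_eq_single b, Finset.sum_eq_single j]
    · cases s
      · simp [tg, mul_smul]
      · simp [tg, mul_smul]
    · intro j' _ hne
      beta_reduce
      rw [if_neg fun h => hne h.2.1, if_neg fun h => hne h.2.1, smul_zero, smul_zero, add_zero,
        smul_zero]
    · intro h
      exact absurd (Finset.mem_range.2 (Nat.lt_succ_of_le hJ)) h
    · intro b' _ hne
      refine Finset.sum_eq_zero fun j' _ => ?_
      beta_reduce
      rw [if_neg fun h => hne h.1, if_neg fun h => hne h.1, smul_zero, smul_zero, add_zero,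
        smul_zero]
    · intro h
      exact absurd (Finset.mem_range.2 (Nat.lt_succ_self b)) h

theorem rep_add (J : ℕ) (F G : ℝ → ℝ → M) (hF : Rep J F) (hG : Rep J G) : Rep J (F + G) := by
  obtain ⟨B, x, y, h1, h2, h3⟩ := hF
  obtain ⟨B', x', y', h1', h2', h3'⟩ := hG
  refine ⟨max B B', fun b j => x b j + x' b j, fun b j => y b j + y' b j, ?_, ?_, ?_⟩
  · intro b j h
    beta_reduce
    rw [(h1 b j h).1, (h1 b j h).2, (h1' b j h).1, (h1' b j h).2, add_zero]
    exact ⟨rfl, rfl⟩
  · intro b j h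
    have ha := h2 b j (le_trans (le_max_left _ _) h)
    have hb := h2' b j (le_trans (le_max_right _ _) h)
    beta_reduce
    rw [ha.1, ha.2, hb.1, hb.2, add_zero]
    exact ⟨rfl, rfl⟩
  · intro ψ L
    show F ψ L + G ψ L = _
    rw [sm_add, h3, h3', sm_ext J B (max B B') x y h2 (le_max_left _ _),
      sm_ext J B' (max B B') x' y' h2' (le_max_right _ _)]

/-- **FRP**. -/
theorem frp : FrpStmt := by
  intro M _ _ J F hF
  have h : Rep J F := by
    unfold TL at hF
    refine Submodule.span_induction (p := fun F _ => Rep J F) ?_ ?_ ?_ ?_ hF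
    · rintro F ⟨b, j, s, x, hj, hJ, rfl⟩
      exact rep_mono J b j s x hj hJ
    · refine ⟨0, fun _ _ => 0, fun _ _ => 0, fun _ _ _ => ⟨rfl, rfl⟩, fun _ _ _ => ⟨rfl, rfl⟩, ?_⟩
      intro ψ L
      unfold sm
      simp
    · intro F G _ _ hF hG
      exact rep_add J F G hF hG
    · rintro c F _ ⟨B, x, y, h1, h2, h3⟩
      refine ⟨B, fun b j => c • x b j, fun b j => c • y b j, ?_, ?_, ?_⟩
      · intro b j h
        beta_reduce
        rw [(h1 b j h).1, (h1 b j h).2, smul_zero]
        exact ⟨rfl, rfl⟩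
      · intro b j h
        beta_reduce
        rw [(h2 b j h).1, (h2 b j h).2, smul_zero]
        exact ⟨rfl, rfl⟩
      · intro ψ L
        show c • F ψ L = _
        rw [sm_smul, h3]
  obtain ⟨B, x, y, h1, -, h3⟩ := h
  exact ⟨B, x, y, h1, h3⟩

end Pool.Agent.BER.H4
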